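import Mathlib
import Pool.Agent.Helper99.CT.Defs

/-!
Project CT: elementary lemmas on words, letters, `First` and `Red`.
-/

set_option autoImplicit false

namespace Pool.Agent.Helper27.CT

open Pool.Agent.Helper99.CT

section Lists

variable {α β : Type} {C : α → α → Prop}

theorem First.append_left {v : α} : ∀ {X : List α} (Y : List α), First C v X → First C v (X ++ Y)
  | [], _, h => h.elim
  | a :: X, Y, h => by
    rcases h with h | ⟨h1, h2⟩
    · exact Or.inl h
    · exact Or.inr ⟨h1, First.append_left Y h2⟩

theorem First.of_append {v : α} : ∀ {X : List α} (Y : List α), First C v (X ++ Y) → v ∈ X →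
    First C v X
  | [], _, _, hv => by simp at hv
  | a :: X, Y, h, hv => by
    rcases h with h | ⟨h1, h2⟩
    · exact Or.inl h
    · by_cases hav : a = v
      · exact Or.inl hav
      · have hv' : v ∈ X := by
          rcases List.mem_cons.1 hv with h | h
          · exact absurd h.symm hav
          · exact h
        exact Or.inr ⟨h1, First.of_append Y h2 hv'⟩

theorem First.mem {v : α} : ∀ {u : List α}, First C v u → v ∈ u
  | [], h => h.elim
  | a :: u, h => by
    rcases h with rfl | ⟨_, h⟩
    · exact List.mem_cons_self
    · exact List.mem_cons_of_mem _ (First.mem h)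

/-- If `v` is not in `X` then all letters of `X` are compatible with `v`. -/
theorem First.compat {v : α} : ∀ {X : List α} (Y : List α), First C v (X ++ Y) → v ∉ X →
    (∀ a ∈ X, C a v) ∧ First C v Y
  | [], _, h, _ => ⟨by simp, h⟩
  | a :: X, Y, h, hv => by
    rcases h with h | ⟨h1, h2⟩
    · exact absurd (h ▸ List.mem_cons_self) hv
    · have ih := First.compat Y h2 (fun h' => hv (List.mem_cons_of_mem _ h'))
      refine ⟨?_, ih.2⟩
      intro b hb
      rcases List.mem_cons.1 hb with rfl | hb
      · exact h1
      · exact ih.1 b hb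

theorem First.prepend {v : α} : ∀ {X Y : List α}, (∀ a ∈ X, C a v) → First C v Y →
    First C v (X ++ Y)
  | [], _, _, h => h
  | a :: X, Y, hX, h => Or.inr ⟨hX a List.mem_cons_self,
      First.prepend (fun b hb => hX b (List.mem_cons_of_mem _ hb)) h⟩

theorem Red.of_append : ∀ {X Y : List α}, Red C (X ++ Y) → Red C Y
  | [], _, h => h
  | _ :: _, _, h => Red.of_append h.2

theorem Red.append_left : ∀ {X Y : List α}, Red C (X ++ Y) → Red C X
  | [], _, _ => trivial
  | _ :: _, Y, h => ⟨fun h' => h.1 (First.append_left Y h'), Red.append_left h.2⟩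

theorem notRed_append {b : List α} : ∀ {a : List α}, ¬ Red C (a ++ b) →
    (∃ a1 v a2, a = a1 ++ v :: a2 ∧ First C v (a2 ++ b)) ∨ ¬ Red C b
  | [], h => Or.inr h
  | c :: a, h => by
    by_cases h1 : First C c (a ++ b)
    · exact Or.inl ⟨[], c, a, rfl, h1⟩
    · have h2 : ¬ Red C (a ++ b) := fun h3 => h ⟨h1, h3⟩
      rcases notRed_append h2 with ⟨a1, v, a2, ha, hv⟩ | h3
      · exact Or.inl ⟨c :: a1, v, a2, by rw [ha]; rfl, hv⟩
      · exact Or.inr h3

theorem notRed_of_first {a1 a2 : List α} {v : α} (h : First C v a2) :
    ¬ Red C (a1 ++ v :: a2) := fun h' => (Red.of_append h').1 h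

/-- If a list of blocks is not reduced, some letter of some block can be cancelled with a later
letter. -/
theorem notRed_flatten : ∀ {bs : List (List α)}, ¬ Red C bs.flatten →
    ∃ bs1 b bs2, bs = bs1 ++ b :: bs2 ∧ ∃ a1 v a2, b = a1 ++ v :: a2 ∧ First C v (a2 ++ bs2.flatten)
  | [], h => absurd trivial h
  | b :: bs, h => by
    rw [List.flatten_cons] at h
    rcases notRed_append h with h1 | h1
    · exact ⟨[], b, bs, rfl, h1⟩
    · obtain ⟨bs1, b', bs2, h2, h3⟩ := notRed_flatten h1
      exact ⟨b :: bs1, b', bs2, by rw [h2]; rfl, h3⟩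

theorem first_map {C' : β → β → Prop} {f : α → β} (hf : Function.Injective f)
    (hC : ∀ a b, C' (f a) (f b) ↔ C a b) (v : α) :
    ∀ u : List α, (First C' (f v) (u.map f) ↔ First C v u)
  | [] => Iff.rfl
  | a :: u => by
    simp only [List.map_cons, First, hf.eq_iff, hC, first_map hf hC v u]

theorem red_map {C' : β → β → Prop} {f : α → β} (hf : Function.Injective f)
    (hC : ∀ a b, C' (f a) (f b) ↔ C a b) :
    ∀ u : List α, (Red C' (u.map f) ↔ Red C u)
  | [] => Iff.rfl
  | a :: u => by
    simp only [List.map_cons, Red, first_map hf hC a u, red_map hf hC u]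

end Lists

variable {n : ℕ}

theorem Comp.refl (S : Finset (Fin n)) : Comp S S := Or.inl (Finset.Subset.refl S)

theorem Comp.symm {S T : Finset (Fin n)} (h : Comp S T) : Comp T S := by
  rcases h with h | h | h
  · exact Or.inr (Or.inl h)
  · exact Or.inl h
  · exact Or.inr (Or.inr h.symm)

theorem mem_mv (π : Equiv.Perm (Fin n)) (S : Finset (Fin n)) (i : Fin n) :
    i ∈ mv π S ↔ π⁻¹ i ∈ S := by
  unfold mv
  rw [Finset.mem_map_equiv]
  rfl

theorem mv_one (S : Finset (Fin n)) : mv 1 S = S := by
  ext i
  simp [mem_mv]

theorem mv_mul (π σ : Equiv.Perm (Fin n)) (S : Finset (Fin n)) :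
    mv (π * σ) S = mv π (mv σ S) := by
  ext i
  simp [mem_mv, mul_inv_rev]

theorem mv_inv_mv (π : Equiv.Perm (Fin n)) (S : Finset (Fin n)) : mv π⁻¹ (mv π S) = S := by
  rw [← mv_mul, inv_mul_cancel, mv_one]

theorem mv_mv_inv (π : Equiv.Perm (Fin n)) (S : Finset (Fin n)) : mv π (mv π⁻¹ S) = S := by
  rw [← mv_mul, mul_inv_cancel, mv_one]

theorem mv_injective (π : Equiv.Perm (Fin n)) : Function.Injective (mv π) := fun S T h => by
  rw [← mv_inv_mv π S, h, mv_inv_mv]

theorem comp_mv (π : Equiv.Perm (Fin n)) (S T : Finset (Fin n)) :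
    Comp (mv π S) (mv π T) ↔ Comp S T := by
  unfold Comp mv
  rw [Finset.map_subset_map, Finset.map_subset_map, Finset.disjoint_map]

theorem map_mv_mul (π σ : Equiv.Perm (Fin n)) (w : List (Finset (Fin n))) :
    w.map (mv (π * σ)) = (w.map (mv σ)).map (mv π) := by
  rw [List.map_map]
  exact List.map_congr_left fun S _ => mv_mul π σ S

theorem map_mv_one (w : List (Finset (Fin n))) : w.map (mv 1) = w := by
  conv_rhs => rw [← List.map_id w]
  exact List.map_congr_left fun S _ => mv_one S

theorem first_mv (π : Equiv.Perm (Fin n)) (v : Finset (Fin n)) (u : List (Finset (Fin n))) :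
    First Comp (mv π v) (u.map (mv π)) ↔ First Comp v u :=
  first_map (mv_injective π) (comp_mv π) v u

theorem red_mv (π : Equiv.Perm (Fin n)) (u : List (Finset (Fin n))) :
    Red Comp (u.map (mv π)) ↔ Red Comp u :=
  red_map (mv_injective π) (comp_mv π) u

theorem rho_s' (g : Gen n) : rho n (s g) = flip g := by
  ext i
  rw [rho_s]
  rfl

@[simp] theorem word_nil : word ([] : List (Gen n)) = 1 := rfl

@[simp] theorem word_cons (g : Gen n) (L : List (Gen n)) : word (g :: L) = s g * word L := by
  simp [word]

theorem word_append (A B : List (Gen n)) : word (A ++ B) = word A * word B := by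
  simp [word]

theorem exists_word (x : Cactus n) : ∃ L : List (Gen n), word L = x := by
  refine induction (P := fun x => ∃ L : List (Gen n), word L = x) ⟨[], rfl⟩ ?_ x
  rintro g x ⟨L, rfl⟩
  exact ⟨g :: L, word_cons g L⟩

theorem length_letters : ∀ L : List (Gen n), (letters L).length = L.length
  | [] => rfl
  | g :: L => by simp [letters, length_letters L]

theorem letters_append : ∀ A B : List (Gen n),
    letters (A ++ B) = letters A ++ (letters B).map (mv (rho n (word A)))
  | [], B => by simp [letters, map_mv_one]
  | g :: A, B => by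
    rw [List.cons_append, letters, letters_append A B, List.map_append, letters,
      List.cons_append, word_cons, map_mul, rho_s', map_mv_mul]

theorem word_flatten_replicate (L : List (Gen n)) : ∀ k : ℕ,
    word (List.replicate k L).flatten = word L ^ k
  | 0 => by simp
  | k + 1 => by
    rw [List.replicate_succ, List.flatten_cons, word_append, word_flatten_replicate L k, pow_succ']

/-- The letters of the `k`-fold repetition of a word. -/
theorem letters_flatten_replicate (L : List (Gen n)) : ∀ k : ℕ,
    letters (List.replicate k L).flatten =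
      ((List.range k).map fun i => (letters L).map (mv (rho n (word L) ^ i))).flatten
  | 0 => by simp [letters]
  | k + 1 => by
    rw [List.replicate_succ, List.flatten_cons, letters_append, letters_flatten_replicate L k,
      List.range_succ_eq_map, List.map_cons, List.flatten_cons, pow_zero, map_mv_one,
      List.map_flatten, List.map_map, List.map_map]
    congr 2
    refine List.map_congr_left fun i _ => ?_
    simp only [Function.comp_apply]
    rw [← map_mv_mul, pow_succ']

/-- Cutting a word at a letter. -/
theorem exists_cut (L : List (Gen n)) (w1 w2 : List (Finset (Fin n)))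
    (h : letters L = w1 ++ w2) : ∃ L1 L2, L = L1 ++ L2 ∧ letters L1 = w1 ∧
      (letters L2).map (mv (rho n (word L1))) = w2 := by
  refine ⟨L.take w1.length, L.drop w1.length, (List.take_append_drop _ _).symm, ?_⟩
  have h1 := letters_append (L.take w1.length) (L.drop w1.length)
  rw [List.take_append_drop, h] at h1
  have hlen : w1.length ≤ L.length := by
    rw [← length_letters L, h, List.length_append]
    omega
  have h2 : w1.length = (letters (L.take w1.length)).length := by
    rw [length_letters, List.length_take]
    omega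
  have h3 := List.append_inj h1 h2
  exact ⟨h3.1.symm, h3.2.symm⟩

end Pool.Agent.Helper27.CT
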