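import Mathlib
import Pool.Agent.Helper27.CT.Words

/-!
Project CT, part (B) of goal ODD.
-/

set_option autoImplicit false

namespace Pool.Agent.Helper27.CT

open Pool.Agent.Helper99.CT

theorem flip_flip {n : ℕ} (g : Gen n) : flip g * flip g = 1 := by
  rw [← rho_s', ← map_mul, s_sq, map_one]

/-- Conjugating by the first generator with letter `u`: the letter `u` goes away and `σ u` is
appended. -/
theorem step (hX : GoalExt) {n : ℕ} (x : Cactus n) (L : List (Gen n))
    (π σ : Equiv.Perm (Fin n)) (v u : Finset (Fin n)) (w' : List (Finset (Fin n)))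
    (hconj : IsConj x (word L)) (hσ : σ = π * rho n (word L) * π⁻¹)
    (hw : (letters L).map (mv π) = v :: w') (hv : v ∉ w') (hu : u ∈ w')
    (hF : First Comp u (v :: w')) :
    ∃ (M : List (Gen n)) (π' : Equiv.Perm (Fin n)), M.length = L.length ∧ IsConj x (word M) ∧
      σ = π' * rho n (word M) * π'⁻¹ ∧
      (letters M).map (mv π') = v :: (w'.erase u ++ [mv σ u]) := by
  have huv : v ≠ u := fun h => hv (h ▸ hu)
  have hF' : First Comp (mv π⁻¹ u) (letters L) := by
    rw [← first_mv π, mv_mv_inv, hw]
    exact hF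
  obtain ⟨h, L₁, hh, hlen, hword, hlet⟩ := hX n _ L hF'
  have hr : rho n (word L) = flip h * rho n (word L₁) := by
    rw [hword, map_mul, rho_s']
  refine ⟨L₁ ++ [h], π * flip h, ?_, ?_, ?_, ?_⟩
  · rw [List.length_append, List.length_singleton, hlen]
  · refine hconj.trans (isConj_iff.2 ⟨s h, ?_⟩)
    have h1 : (s h)⁻¹ = s h := inv_eq_of_mul_eq_one_left (s_sq h)
    rw [word_append, word_cons, word_nil, mul_one, h1, hword, ← mul_assoc, s_sq, one_mul]
  · rw [word_append, word_cons, word_nil, mul_one, map_mul, rho_s', hσ, hr]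
    have h1 : flip h * (flip h)⁻¹ = 1 := mul_inv_cancel _
    rw [mul_inv_rev]
    calc π * (flip h * rho n (word L₁)) * π⁻¹
        = π * flip h * rho n (word L₁) * (flip h * (flip h)⁻¹) * π⁻¹ := by
          rw [h1]; group
      _ = _ := by group
  · rw [letters_append, List.map_append, hlet, ← map_mv_mul, mul_assoc, flip_flip, mul_one,
      ← map_mv_mul]
    have h1 : ((letters L).erase (mv π⁻¹ u)).map (mv π) = v :: w'.erase u := by
      rw [List.map_erase (mv_injective π), mv_mv_inv, hw, List.erase_cons_tail (by simpa using huv)]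
    rw [h1, List.cons_append]
    congr 2
    simp only [letters, List.map_cons, List.map_nil]
    rw [hh, ← mv_mul, hσ, hr]
    congr 2

theorem odd_B (hX : GoalExt) (hS : GoalShort) {n : ℕ} (x : Cactus n) (m : ℕ)
    (hmin : ∀ L : List (Gen n), IsConj x (word L) → m ≤ L.length) :
    ∀ (t : ℕ), 1 ≤ t → ∀ (L : List (Gen n)) (π σ : Equiv.Perm (Fin n)) (v u : Finset (Fin n))
      (w' : List (Finset (Fin n))), L.length = m → IsConj x (word L) →
      σ = π * rho n (word L) * π⁻¹ → (letters L).map (mv π) = v :: w' → v ∉ w' →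
      (∀ a ∈ w', Comp a v) →
      (∀ i, 1 ≤ i → i < t → ∀ a ∈ v :: w', Comp (mv (σ ^ i) a) v ∧ mv (σ ^ i) a ≠ v) →
      u ∈ w' → mv (σ ^ t) u = v → First Comp u (v :: w') → False := by
  intro t ht
  induction t, ht using Nat.le_induction with
  | base =>
    intro L π σ v u w' hLm hconj hσ hw hv hcomp _ hu hut hF
    obtain ⟨M, π', hMm, hMc, hσ', hw2⟩ := step hX x L π σ v u w' hconj hσ hw hv hu hF
    have hnr : ¬ Red Comp (letters M) := by
      rw [← red_mv π', hw2]
      rw [pow_one] at hut
      rw [hut]
      intro h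
      refine h.1 (First.prepend (fun a ha => hcomp a (List.mem_of_mem_erase ha)) (Or.inl rfl))
    obtain ⟨L', hlen, hL'⟩ := hS n M hnr
    have := hmin L' (hL' ▸ hMc)
    omega
  | succ t ht ih =>
    intro L π σ v u w' hLm hconj hσ hw hv hcomp hi hu hut hF
    obtain ⟨M, π', hMm, hMc, hσ', hw2⟩ := step hX x L π σ v u w' hconj hσ hw hv hu hF
    have h1 := hi 1 le_rfl (by omega) u (List.mem_cons_of_mem _ hu)
    rw [pow_one] at h1
    refine ih M π' σ v (mv σ u) (w'.erase u ++ [mv σ u]) (hMm.trans hLm) hMc hσ' hw2 ?_ ?_ ?_ ?_ ?_ ?_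
    · rw [List.mem_append, List.mem_singleton, not_or]
      exact ⟨fun h => hv (List.mem_of_mem_erase h), fun h => h1.2 h.symm⟩
    · intro a ha
      rcases List.mem_append.1 ha with h | h
      · exact hcomp a (List.mem_of_mem_erase h)
      · rw [List.mem_singleton.1 h]
        exact h1.1
    · intro i hi1 hit a ha
      rcases List.mem_cons.1 ha with h | h
      · rw [h]
        exact hi i hi1 (by omega) v List.mem_cons_self
      · rcases List.mem_append.1 h with h | h
        · exact hi i hi1 (by omega) a (List.mem_cons_of_mem _ (List.mem_of_mem_erase h))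
        · rw [List.mem_singleton.1 h, ← mv_mul, ← pow_succ]
          exact hi (i + 1) (by omega) (by omega) u (List.mem_cons_of_mem _ hu)
    · simp
    · rw [← mv_mul, ← pow_succ]
      exact hut
    · rw [← List.cons_append]
      refine First.prepend ?_ (Or.inl rfl)
      intro a ha
      have ha' : a ∈ v :: w' := by
        rcases List.mem_cons.1 ha with h | h
        · rw [h]
          exact List.mem_cons_self
        · exact List.mem_cons_of_mem _ (List.mem_of_mem_erase h)
      rw [← comp_mv (σ ^ t), ← mv_mul, ← pow_succ, hut]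
      exact (hi t ht (by omega) a ha').1

end Pool.Agent.Helper27.CT
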