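import Mathlib
import Pool.Agent.Helper27.CT.Words

/-!
Project CT, goal PUR: the pure cactus group is torsion-free.
-/

set_option autoImplicit false

namespace Pool.Agent.Helper27.CT

open Pool.Agent.Helper99.CT

theorem pur_aux (hD : GoalDel) (hS : GoalShort) (hE : GoalEven) (n k : ℕ) (hk : 0 < k) :
    ∀ (m : ℕ) (L : List (Gen n)), L.length ≤ m → rho n (word L) = 1 → word L ^ k = 1 →
      word L = 1 := by
  intro m
  induction m with
  | zero =>
    intro L hL _ _
    have : L = [] := List.length_eq_zero_iff.1 (Nat.le_zero.1 hL)
    rw [this]
    rfl
  | succ m ih =>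
    intro L hL hr hx
    by_cases hL0 : L = []
    · rw [hL0]
      rfl
    set w := letters L with hw
    have hblocks : letters (List.replicate k L).flatten = (List.replicate k w).flatten := by
      rw [letters_flatten_replicate, hr]
      congr 1
      refine List.eq_replicate_iff.2 ⟨by simp, ?_⟩
      intro b hb
      obtain ⟨i, _, rfl⟩ := List.mem_map.1 hb
      rw [one_pow, map_mv_one]
    have hne : (List.replicate k L).flatten ≠ [] := by
      intro h
      have := List.flatten_eq_nil_iff.1 h L (List.mem_replicate.2 ⟨by omega, rfl⟩)
      exact hL0 this
    have hnr : ¬ Red Comp (List.replicate k w).flatten := by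
      rw [← hblocks]
      exact (hD n _ (by rw [word_flatten_replicate, hx])).1 hne
    obtain ⟨bs1, b, bs2, hbs, w1, v, w2, hb, hv⟩ := notRed_flatten hnr
    have hbw : b = w := by
      have : b ∈ List.replicate k w := by
        rw [hbs]
        simp
      exact List.eq_of_mem_replicate this
    have hbs2 : ∀ c ∈ bs2, c = w := by
      intro c hc
      have : c ∈ List.replicate k w := by
        rw [hbs]
        simp [hc]
      exact List.eq_of_mem_replicate this
    rw [hbw] at hb
    by_cases hvm : v ∈ w2 ++ w1
    · -- a rotation of `L` is not reduced
      have hF : First Comp v (w2 ++ w1) := by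
        rcases bs2 with _ | ⟨c, bs2⟩
        · rw [List.flatten_nil, List.append_nil] at hv
          exact First.append_left _ hv
        · rw [List.flatten_cons, hbs2 c (by simp), hb] at hv
          refine First.of_append (v :: w2 ++ bs2.flatten) ?_ hvm
          simpa [List.append_assoc] using hv
      obtain ⟨L1, L2, hL12, h1, h2⟩ := exists_cut L w1 (v :: w2) (hw ▸ hb)
      have hr12 : rho n (word L1) * rho n (word L2) = 1 := by
        rw [← map_mul, ← word_append, ← hL12, hr]
      have hnr' : ¬ Red Comp (letters (L2 ++ L1)) := by
        rw [← red_mv (rho n (word L1)), letters_append, List.map_append, ← map_mv_mul, hr12,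
          map_mv_one, h1, h2]
        exact fun h' => h'.1 hF
      obtain ⟨L', hlen, hL'⟩ := hS n _ hnr'
      have hconj : word L' = (word L1)⁻¹ * word L * word L1 := by
        rw [hL', hL12, word_append, word_append]
        group
      have hlen' : L'.length ≤ m := by
        rw [hL12, List.length_append] at hL
        rw [List.length_append] at hlen
        omega
      have h3 : word L' = 1 := by
        apply ih L' hlen'
        · rw [hconj, map_mul, map_mul, map_inv, hr]
          group
        · have : (word L1)⁻¹ * word L * word L1 = (word L1)⁻¹ * word L * ((word L1)⁻¹)⁻¹ := by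
            rw [inv_inv]
          rw [hconj, this, conj_pow, hx]
          group
      rw [h3] at hconj
      have h4 : word L = word L1 * 1 * (word L1)⁻¹ := by
        rw [hconj]
        group
      rw [h4]
      group
    · exfalso
      have h1 := hE n L k hk hr hx v
      rw [← hw, hb, List.count_append, List.count_cons_self] at h1
      rw [List.mem_append, not_or] at hvm
      rw [List.count_eq_zero_of_not_mem hvm.1, List.count_eq_zero_of_not_mem hvm.2] at h1
      exact absurd h1 (by decide)

/-- PUR: the pure cactus group is torsion-free. -/
theorem pur (hD : GoalDel) (hS : GoalShort) (hE : GoalEven) : GoalPure := by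
  intro n x k hk hr hx
  obtain ⟨L, rfl⟩ := exists_word x
  exact pur_aux hD hS hE n k hk L.length L le_rfl hr hx

end Pool.Agent.Helper27.CT
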